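import Pool.Agent.Helper75.CR.St

/-!
# Module M1 of the project CR: completely regular fully invariant congruences
-/

set_option autoImplicit false

namespace Pool.Agent.Helper6.CR

open Pool.Agent.Helper75.CR Helper1.IM

/-- powers of a word -/
def pw (k : ℕ) (s : Wd) : Wd := (List.replicate k s).flatten

theorem pw_zero (s : Wd) : pw 0 s = [] := rfl

theorem pw_succ (k : ℕ) (s : Wd) : pw (k + 1) s = s ++ pw k s := by
  simp [pw, List.replicate_succ]

theorem pw_add (k l : ℕ) (s : Wd) : pw (k + l) s = pw k s ++ pw l s := by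
  induction k with
  | zero => simp [pw_zero]
  | succ k ih => rw [Nat.add_right_comm, pw_succ, pw_succ, ih, List.append_assoc]

theorem pw_one (s : Wd) : pw 1 s = s := by simp [pw]

theorem pw_succ' (k : ℕ) (s : Wd) : pw (k + 1) s = pw k s ++ s := by
  rw [pw_add, pw_one]

theorem st_pw {s : Wd} (hs : st s = s) (k : ℕ) : st (pw k s) = pw k s := by
  induction k with
  | zero => rfl
  | succ k ih => rw [pw_succ, st_append, ih, hs, ← pw_succ', pw_succ]

theorem ct_pw (k : ℕ) (s : Wd) : ct (pw (k + 1) s) = ct s := by
  induction k with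
  | zero => rw [pw_one]
  | succ k ih => rw [pw_succ, ct_append, ih, Finset.union_self]

theorem sb_const {s : Wd} (hs : st s = s) (b : Wd) : sb (fun _ => s) b = pw b.length s := by
  induction b with
  | nil => rfl
  | cons a b ih =>
    rw [sb_cons, ih, List.length_cons, pw_succ]
    simp [hs]

/-- A star invariant word is congruent to a higher power of itself. -/
theorem power {θ : FIC} {b : Wd} (hb : θ.r [X 0] ([X 0, X 0] ++ b)) {s : Wd} (hs : st s = s)
    (hne : s ≠ []) : θ.r s (pw (b.length + 2) s) := by
  have h := θ.sub' (fun _ => s) (fun _ => hne) hb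
  have e : sb (fun _ => s) ([X 0, X 0] ++ b) = s ++ s ++ pw b.length s := by
    rw [sb_append, sb_const hs b]
    simp
  have e1 : sb (fun _ => s) [X 0] = s := by simp
  rw [e, e1] at h
  rw [pw_succ, pw_succ, ← List.append_assoc]
  exact h

theorem idem {θ : FIC} {b : Wd} (hb : θ.r [X 0] ([X 0, X 0] ++ b)) {s : Wd} (hs : st s = s)
    (hne : s ≠ []) :
    θ.r (pw (b.length + 1) s ++ pw (b.length + 1) s) (pw (b.length + 1) s) := by
  have h := θ.symm' (θ.mul' (pw b.length s) [] (power hb hs hne))
  rw [List.append_nil, List.append_nil, ← pw_add, ← pw_succ'] at h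
  rw [← pw_add]
  have e : b.length + 1 + (b.length + 1) = b.length + (b.length + 2) := by omega
  rw [e]
  exact h

theorem hM1 : Pool.Agent.Helper75.CR.StM1 := by
  intro θ hθ
  obtain ⟨⟨b, hb⟩, c, hc⟩ := hθ
  refine ⟨?_, ?_⟩
  · intro y hy
    refine ⟨⟨sb (fun _ => y) b, ?_⟩, sb (fun _ => y) c, ?_⟩
    · have h := θ.sub' (fun _ => y) (fun _ => hy) hb
      change θ.r _ _
      simpa using h
    · have h := θ.sub' (fun _ => y) (fun _ => hy) hc
      change θ.r _ _
      simpa using h
  · intro w hw
    have hsw : st (w ++ st w) = w ++ st w := by simp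
    have hsw' : st (st w ++ w) = st w ++ w := by simp
    have hne : w ++ st w ≠ [] := by simp [hw]
    have hne' : st w ++ w ≠ [] := by simp [hw]
    refine ⟨⟨st w ++ pw b.length (w ++ st w), ?_⟩, pw b.length (st w ++ w) ++ st w, ?_⟩
    · have e : w ++ (st w ++ pw b.length (w ++ st w)) = pw (b.length + 1) (w ++ st w) := by
        rw [pw_succ, List.append_assoc]
      rw [e]
      refine ⟨idem hb hsw hne, ?_, ?_⟩
      · intro b'
        have e2 : SB.sg b' (pw (b.length + 1) (w ++ st w)) = pw (b.length + 1) (w ++ st w) := by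
          cases b'
          · simp [SB]
          · simp only [SB, if_true]
            exact st_pw hsw _
        rw [e2]
        exact θ.refl' _
      · rw [cn_eq_ct, cn_eq_ct, ct_pw, ct_append, ct_st, Finset.union_self]
    · have e : pw b.length (st w ++ w) ++ st w ++ w = pw (b.length + 1) (st w ++ w) := by
        rw [pw_succ', List.append_assoc]
      rw [e]
      refine ⟨idem hb hsw' hne', ?_, ?_⟩
      · intro b'
        have e2 : SB.sg b' (pw (b.length + 1) (st w ++ w)) = pw (b.length + 1) (st w ++ w) := by
          cases b'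
          · simp [SB]
          · simp only [SB, if_true]
            exact st_pw hsw' _
        rw [e2]
        exact θ.refl' _
      · rw [cn_eq_ct, cn_eq_ct, ct_pw, ct_append, ct_st, Finset.union_self]

end Pool.Agent.Helper6.CR
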