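import Pool.Agent.Helper75.CR.St3

/-!
# Project CR (MP_265e56_al), module Q4: the case where `α` or `β` identifies paired words (variant of module N8)
-/

set_option autoImplicit false

namespace Pool.Agent.Helper6.CR

open Pool.Agent.Helper75.CR Helper1.IM

theorem sc_symm {u v : Wd} (h : SC u v) : SC v u := fun a => (h a).symm

theorem sc_trans {u v w : Wd} (h : SC u v) (h' : SC v w) : SC u w := fun a => (h a).trans (h' a)

theorem sc_prd {u v : Wd} (h : SC u v) (hu : Prd u) : Prd v := by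
  obtain ⟨i, h1, h2⟩ := hu
  exact ⟨i, (h _).1 h1, (h _).1 h2⟩

theorem sc_ct {u v : Wd} (h : SC u v) : ct u = ct v := by
  ext i
  rw [mem_ct, mem_ct]
  constructor
  · rintro ⟨b, hb⟩
    exact ⟨b, (h _).1 hb⟩
  · rintro ⟨b, hb⟩
    exact ⟨b, (h _).2 hb⟩

theorem prd_st {s : Wd} (hs : s ≠ []) : Prd (s ++ st s) := by
  obtain ⟨⟨i, b⟩, s', rfl⟩ := List.exists_cons_of_ne_nil hs
  refine ⟨i, ?_, ?_⟩ <;> cases b <;> simp [fl]

theorem ct_st' (s : Wd) : ct (s ++ st s) = ct s := by
  rw [ct_append, ct_st, Finset.union_self]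

/-- (A) -/
theorem slA {ρ : FIC} (h : SLc ρ) {s : Wd} (hs : s ≠ []) : ρ.r s (s ++ st s) :=
  h s _ hs (ct_st' s).symm

/-- (B) -/
theorem slB {ρ : FIC} (h : SLc ρ) (hz : ZZ ρ) {s t : Wd} (hs : s ≠ []) (ht : t ≠ []) : ρ.r s t :=
  ρ.trans' (slA h hs) (ρ.trans' (hz _ _ (prd_st hs) (prd_st ht)) (ρ.symm' (slA h ht)))

theorem jn_ne {α β : FIC} {u v : Wd} (h : Jn α β u v) (hu : u ≠ []) : v ≠ [] := by
  unfold Jn at h
  induction h with
  | refl => exact hu
  | tail _ h1 ih =>
    rcases h1 with h1 | h1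
    · exact α.ne'' h1 ih
    · exact β.ne'' h1 ih

/-- Steps change the content only if a certain property holds. -/
theorem jn_ct {α β : FIC} {p q : Prop} (hα : ∀ b c : Wd, b ≠ [] → α.r b c → ct b ≠ ct c → p)
    (hβ : ∀ b c : Wd, b ≠ [] → β.r b c → ct b ≠ ct c → q) {u v : Wd} (h : Jn α β u v)
    (hu : u ≠ []) : ct u = ct v ∨ p ∨ q := by
  unfold Jn at h
  induction h with
  | refl => exact Or.inl rfl
  | @tail b c h0 h1 ih =>
    rcases ih with ih | ih
    · have hb : b ≠ [] := jn_ne h0 hu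
      by_cases hc : ct b = ct c
      · exact Or.inl (ih.trans hc)
      · rcases h1 with h1 | h1
        · exact Or.inr (Or.inl (hα b c hb h1 hc))
        · exact Or.inr (Or.inr (hβ b c hb h1 hc))
    · exact Or.inr ih

/-- If `γ` relates all nonempty words the chain is a chain for `Jm`. -/
theorem jm_all {α β γ : FIC} (hγ : ∀ s t : Wd, s ≠ [] → t ≠ [] → γ.r s t) {u v : Wd}
    (h : Jn α β u v) (hu : u ≠ []) : Jm α β γ u v := by
  unfold Jn at h
  unfold Jm
  induction h with
  | refl => exact Relation.ReflTransGen.refl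
  | @tail b c h0 h1 ih =>
    have hb : b ≠ [] := jn_ne h0 hu
    refine ih.tail ?_
    rcases h1 with h1 | h1
    · exact Or.inl h1
    · exact Or.inr ⟨h1, hγ b c hb (β.ne'' h1 hb)⟩

theorem jm_one {α β γ : FIC} {u v : Wd} (h : α.r u v ∨ (β.r u v ∧ γ.r u v)) : Jm α β γ u v :=
  Relation.ReflTransGen.single h

/-- Steps from an unpaired word keep the signed letters. -/
def Kp (ρ : FIC) : Prop := ∀ w w' : Wd, w ≠ [] → ¬ Prd w → ρ.r w w' → SC w w'

theorem kp_of (hN4 : StN4) {ρ : FIC} (h1 : CRF ρ) (h2 : PII ρ) (h3 : P3 ρ) (hn : ¬ SLc ρ) :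
    Kp ρ := by
  intro w w' hw hp h
  by_contra hc
  exact hn (hN4 ρ h1 h2 h3 w w' hw hp h hc)

theorem kp_scp {ρ : FIC} (h : SCP ρ) : Kp ρ := fun _ _ _ _ hr => h _ _ hr

/-- Steps from a paired word lead to paired words. -/
theorem prd_step {ρ : FIC} (hk : Kp ρ) {w w' : Wd} (hw : w ≠ []) (hp : Prd w) (h : ρ.r w w') :
    Prd w' := by
  by_contra hc
  have := hk w' w (ρ.ne'' h hw) hc (ρ.symm' h)
  exact hc (sc_prd (sc_symm this) hp)

theorem prd_chain {α β : FIC} (kα : Kp α) (kβ : Kp β) {u v : Wd} (hJ : Jn α β u v) (hu : u ≠ [])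
    (hp : Prd u) : Prd v := by
  have key : ∀ x, Jn α β u x → Prd x := by
    intro x hx
    unfold Jn at hx
    induction hx with
    | refl => exact hp
    | @tail b c h0 h1 ih =>
      have hb : b ≠ [] := jn_ne h0 hu
      rcases h1 with h1 | h1
      · exact prd_step kα hb ih h1
      · exact prd_step kβ hb ih h1
  exact key v hJ

/-- The unpaired case. -/
theorem unp_chain (hN7 : StN7) {θ α β γ : FIC} (hcr : CRF θ) (hsl : SLE θ) (hα : Le θ α)
    (hβ : Le θ β) (hαγ : Le α γ) (kα : Kp α) (kβ : Kp β) {u v : Wd} (hJ : Jn α β u v)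
    (hg : γ.r u v) (hu : u ≠ []) (hpu : ¬ Prd u) : Jm α β γ u v := by
  have key : ∀ x, Jn α β u x → SC u x ∧ ∃ w, SC u w ∧ α.r u w ∧ β.r w x := by
    intro x hx
    unfold Jn at hx
    induction hx with
    | refl => exact ⟨fun _ => Iff.rfl, u, fun _ => Iff.rfl, α.refl' _, β.refl' _⟩
    | @tail b c h0 h1 ih =>
      have hb : b ≠ [] := jn_ne h0 hu
      obtain ⟨hub, w, huw, haw, hwb⟩ := ih
      have hpb : ¬ Prd b := fun h => hpu (sc_prd (sc_symm hub) h)
      rcases h1 with h1 | h1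
      · have hbc : SC b c := kα b c hb hpb h1
        have hw0 : w ≠ [] := α.ne'' haw hu
        have hpw : ¬ Prd w := fun h => hpu (sc_prd (sc_symm huw) h)
        obtain ⟨w', h3, h4, h5⟩ := hN7 θ hcr hsl β α hβ hα w b c hw0 hpw
          (sc_trans (sc_symm huw) hub) hbc hwb h1
        exact ⟨sc_trans hub hbc, w', sc_trans huw h3, α.trans' haw h4, h5⟩
      · have hbc : SC b c := kβ b c hb hpb h1
        exact ⟨sc_trans hub hbc, w, huw, haw, β.trans' hwb h1⟩
  obtain ⟨_, w, _, haw, hwv⟩ := key v hJ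
  have hgw : γ.r w v := γ.trans' (γ.symm' (hαγ _ _ haw)) hg
  have j1 : Jm α β γ u w := jm_one (Or.inl haw)
  exact j1.trans (jm_one (Or.inr ⟨hwv, hgw⟩))

theorem hQ4 (hN4 : Helper75.CR.StN4) (hN5 : Helper75.CR.StN5) (hN7 : Helper75.CR.StN7) :
    Helper75.CR.StQ4 := by
  intro θ α β γ hcr hpi hsl hα hβ hαγ h1 h2 h3 u v hJ hg
  by_cases hu : u = []
  · subst hu
    have hv : v = [] := γ.ne' hg rfl
    subst hv
    exact Relation.ReflTransGen.refl
  have hv : v ≠ [] := jn_ne hJ hu
  have cα := hcr.mono hα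
  have cβ := hcr.mono hβ
  have cγ := cα.mono hαγ
  have iα := hpi.mono hα
  have iβ := hpi.mono hβ
  have iγ := iα.mono hαγ
  -- the cases
  have caseII : P3 α → SCP β → Jm α β γ u v := by
    intro pα sβ
    have hC : ct u = ct v ∨ ZZ α ∨ False := jn_ct (fun b c hb h hc => hN5 α pα b c hb h hc)
      (fun b c _ h hc => hc (sc_ct (sβ b c h))) hJ hu
    by_cases hsα : SLc α
    · rcases hC with hC | hC | hC
      · exact jm_one (Or.inl (hsα u v hu hC))
      · exact jm_one (Or.inl (slB hsα hC hu hv))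
      · exact hC.elim
    · have kα := kp_of hN4 cα iα pα hsα
      have kβ := kp_scp sβ
      by_cases hpu : Prd u
      · have hpv := prd_chain kα kβ hJ hu hpu
        rcases hC with hC | hC | hC
        · exact jm_one (Or.inl (pα u v hpu hpv hC))
        · exact jm_one (Or.inl (hC u v hpu hpv))
        · exact hC.elim
      · exact unp_chain hN7 hcr hsl hα hβ hαγ kα kβ hJ hg hu hpu
  have caseIII : SCP α → P3 β → Jm α β γ u v := by
    intro sα pβ
    have hC : ct u = ct v ∨ False ∨ ZZ β := jn_ct (fun b c _ h hc => hc (sc_ct (sα b c h)))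
      (fun b c hb h hc => hN5 β pβ b c hb h hc) hJ hu
    by_cases hsβ : SLc β
    · rcases hC with hC | hC | hC
      · exact jm_one (Or.inr ⟨hsβ u v hu hC, hg⟩)
      · exact hC.elim
      · exact jm_one (Or.inr ⟨slB hsβ hC hu hv, hg⟩)
    · have kα := kp_scp sα
      have kβ := kp_of hN4 cβ iβ pβ hsβ
      by_cases hpu : Prd u
      · have hpv := prd_chain kα kβ hJ hu hpu
        rcases hC with hC | hC | hC
        · exact jm_one (Or.inr ⟨pβ u v hpu hpv hC, hg⟩)
        · exact hC.elim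
        · exact jm_one (Or.inr ⟨hC u v hpu hpv, hg⟩)
      · exact unp_chain hN7 hcr hsl hα hβ hαγ kα kβ hJ hg hu hpu
  rcases h1 with pα | sα
  · rcases h2 with pβ | sβ
    · -- CASE I
      have pγ : P3 γ := pα.mono hαγ
      have hC : ct u = ct v ∨ ZZ α ∨ ZZ β := jn_ct (fun b c hb h hc => hN5 α pα b c hb h hc)
        (fun b c hb h hc => hN5 β pβ b c hb h hc) hJ hu
      by_cases hct : ct u = ct v
      · by_cases hsα : SLc α
        · exact jm_one (Or.inl (hsα u v hu hct))
        by_cases hsβ : SLc β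
        · exact jm_one (Or.inr ⟨hsβ u v hu hct, hg⟩)
        have kα := kp_of hN4 cα iα pα hsα
        have kβ := kp_of hN4 cβ iβ pβ hsβ
        by_cases hpu : Prd u
        · have hpv := prd_chain kα kβ hJ hu hpu
          exact jm_one (Or.inl (pα u v hpu hpv hct))
        · exact unp_chain hN7 hcr hsl hα hβ hαγ kα kβ hJ hg hu hpu
      -- different contents
      have hzγ : ZZ γ := hN5 γ pγ u v hu hg hct
      have hnsc : ¬ SC u v := fun h => hct (sc_ct h)
      rcases hC with hC | hzα | hzβ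
      · exact absurd hC hct
      · by_cases hpu : Prd u
        · by_cases hpv : Prd v
          · exact jm_one (Or.inl (hzα u v hpu hpv))
          · have hsγ : SLc γ :=
              hN4 γ cγ iγ pγ v u hv hpv (γ.symm' hg) (fun h => hnsc (sc_symm h))
            exact jm_all (fun s t hs ht => slB hsγ hzγ hs ht) hJ hu
        · have hsγ : SLc γ := hN4 γ cγ iγ pγ u v hu hpu hg hnsc
          exact jm_all (fun s t hs ht => slB hsγ hzγ hs ht) hJ hu
      · by_cases hpu : Prd u
        · by_cases hpv : Prd v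
          · exact jm_one (Or.inr ⟨hzβ u v hpu hpv, hg⟩)
          · have hsγ : SLc γ :=
              hN4 γ cγ iγ pγ v u hv hpv (γ.symm' hg) (fun h => hnsc (sc_symm h))
            exact jm_all (fun s t hs ht => slB hsγ hzγ hs ht) hJ hu
        · have hsγ : SLc γ := hN4 γ cγ iγ pγ u v hu hpu hg hnsc
          exact jm_all (fun s t hs ht => slB hsγ hzγ hs ht) hJ hu
    · exact caseII pα sβ
  · rcases h3 with pα | pβ
    · rcases h2 with pβ | sβ
      · exact caseIII sα pβ
      · exact caseII pα sβ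
    · exact caseIII sα pβ

end Pool.Agent.Helper6.CR
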